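import Mathlib

open Filter Topology

namespace Pool.Agent.Results.MP_e7d72a_nt.Counter

noncomputable def rr (t : ℝ) : Fin 4 → ℝ := ![9 / 10 * t, 13 / 10 * t, 9 / 10 + t, 13 / 10]

lemma fac (t : ℝ) (w : ℂ) : w ^ 4 + ∑ i : Fin 4, (rr t i : ℂ) * w ^ (i : ℕ)
    = (w ^ 2 + t) * (w ^ 2 + 13 / 10 * w + 9 / 10) := by
  simp [Fin.sum_univ_four, rr]; ring

lemma psi (w : ℂ) (h : w ^ 2 + 13 / 10 * w + 9 / 10 = 0) : ‖w‖ < 1 := by
  have h1 := congrArg Complex.re h
  have h2 := congrArg Complex.im h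
  simp [pow_two] at h1 h2
  have h3 : w.im * (2 * w.re + 13 / 10) = 0 := by linarith
  have : w.re * w.re + w.im * w.im < 1 := by
    rcases mul_eq_zero.1 h3 with h4 | h4
    · rw [h4] at h1; nlinarith [sq_nonneg (w.re + 13 / 20)]
    · have : w.re = -13 / 20 := by linarith
      rw [this] at h1 ⊢; linarith
  rw [← sq_lt_one_iff₀ (norm_nonneg _), Complex.sq_norm, Complex.normSq_apply]
  exact this

lemma stp (a b c d e : ℤ) (h1 : 0 ≤ 9 * a + 13 * b + 19 * c + 13 * d + 10 * e)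
    (h2 : 9 * a + 13 * b + 19 * c + 13 * d + 10 * e < 10) :
    (fun z : Fin 4 → ℤ => ![z 1, z 2, z 3, -⌊∑ i, rr 1 i * (z i : ℝ)⌋]) ![a, b, c, d]
      = ![b, c, d, e] := by
  have : ⌊∑ i, rr 1 i * ((![a, b, c, d] : Fin 4 → ℤ) i : ℝ)⌋ = -e := by
    rw [Int.floor_eq_iff]
    have h1' : (0 : ℝ) ≤ 9 * a + 13 * b + 19 * c + 13 * d + 10 * e := by exact_mod_cast h1
    have h2' : (9 * a + 13 * b + 19 * c + 13 * d + 10 * e : ℝ) < 10 := by exact_mod_cast h2
    simp [Fin.sum_univ_four, rr]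
    constructor <;> linarith
  simp only [this]
  simp

theorem result : ∃ r : Fin 4 → ℝ,
    r ∈ closure {s : Fin 4 → ℝ | ∀ w : ℂ,
      w ^ 4 + ∑ i : Fin 4, (s i : ℂ) * w ^ (i : ℕ) = 0 → ‖w‖ < 1} ∧
    (∃ w : ℂ, w.im ≠ 0 ∧ ‖w‖ = 1 ∧ w ^ 4 + ∑ i : Fin 4, (r i : ℂ) * w ^ (i : ℕ) = 0) ∧
    (∀ w : ℂ, w ^ 4 + ∑ i : Fin 4, (r i : ℂ) * w ^ (i : ℕ) = 0 →
      w ≠ 1 ∧ w ≠ -1 ∧ 4 * w ^ 3 + 3 * (r 3 : ℂ) * w ^ 2 + 2 * (r 2 : ℂ) * w + (r 1 : ℂ) ≠ 0) ∧
    ∃ z₀ : Fin 4 → ℤ, ¬ ∃ n p : ℕ, 1 ≤ p ∧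
      (fun z : Fin 4 → ℤ => ![z 1, z 2, z 3, -⌊∑ i, r i * (z i : ℝ)⌋])^[n + p] z₀
        = (fun z : Fin 4 → ℤ => ![z 1, z 2, z 3, -⌊∑ i, r i * (z i : ℝ)⌋])^[n] z₀ := by
  refine ⟨rr 1, ?_, ⟨Complex.I, by simp, by simp, by rw [fac]; simp⟩, ?_, ![0, 0, 2, 1], ?_⟩
  · have c : Continuous rr := by
      unfold rr
      refine continuous_pi (fun i => ?_)
      fin_cases i <;> simp <;> fun_prop
    have t : Tendsto rr (𝓝[<] 1) (𝓝 (rr 1)) := (c.tendsto 1).mono_left nhdsWithin_le_nhds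
    apply mem_closure_of_tendsto t
    filter_upwards [Ioo_mem_nhdsLT (show (0 : ℝ) < 1 by norm_num)] with t ht w hw
    rw [fac] at hw
    rcases mul_eq_zero.1 hw with h | h
    · have : w ^ 2 = -(t : ℂ) := by linear_combination h
      have h2 := congrArg norm this
      rw [norm_pow, norm_neg, Complex.norm_real, Real.norm_of_nonneg ht.1.le] at h2
      rw [← sq_lt_one_iff₀ (norm_nonneg _), h2]; exact ht.2
    · exact psi w h
  · intro w hw
    rw [fac] at hw
    refine ⟨?_, ?_, ?_⟩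
    · rintro rfl; norm_num at hw
    · rintro rfl; norm_num at hw
    · simp [rr]
      intro hd
      push_cast at hw
      rcases mul_eq_zero.1 hw with h | h
      · have : w = -13 := by linear_combination -5 * hd + 5 * (4 * w + 39 / 10) * h
        rw [this] at h; norm_num at h
      · have : (1 - 13 * w) * (20 * w + 13) = 0 := by
          linear_combination 100 * hd - (400 * w + 130) * h
        rcases mul_eq_zero.1 this with h1 | h1
        · have : w = 1 / 13 := by linear_combination -1 / 13 * h1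
          rw [this] at h; norm_num at h
        · have : w = -13 / 20 := by linear_combination 1 / 20 * h1
          rw [this] at h; norm_num at h
  · rintro ⟨n, p, hp, h⟩
    set T := (fun z : Fin 4 → ℤ => ![z 1, z 2, z 3, -⌊∑ i, rr 1 i * (z i : ℝ)⌋]) with hT
    have st : ∀ a b c d e : ℤ, 0 ≤ 9 * a + 13 * b + 19 * c + 13 * d + 10 * e →
        9 * a + 13 * b + 19 * c + 13 * d + 10 * e < 10 → T ![a, b, c, d] = ![b, c, d, e] := stp
    clear_value T
    have s8 : ∀ k : ℤ, T^[8] ![-k, 0, 2 + k, 1] = ![-(k + 1), 0, 2 + (k + 1), 1] := by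
      intro k
      simp only [Function.iterate_succ_apply, Function.iterate_zero_apply]
      rw [st _ _ _ _ (-5 - k) (by omega) (by omega), st _ _ _ _ 2 (by omega) (by omega),
        st _ _ _ _ (4 + k) (by omega) (by omega), st _ _ _ _ (-3) (by omega) (by omega),
        st _ _ _ _ (-(k + 1)) (by omega) (by omega), st _ _ _ _ 0 (by omega) (by omega),
        st _ _ _ _ (2 + (k + 1)) (by omega) (by omega), st _ _ _ _ 1 (by omega) (by omega)]
    have sk : ∀ k : ℕ, T^[8 * k] ![0, 0, 2, 1] = ![-(k : ℤ), 0, 2 + k, 1] := by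
      intro k
      induction k with
      | zero => simp
      | succ k ih =>
        rw [Nat.mul_succ, add_comm (8 * k), Function.iterate_add_apply, ih, s8]; push_cast; rfl
    have per : ∀ j : ℕ, T^[n + p * j] ![0, 0, 2, 1] = T^[n] ![0, 0, 2, 1] := by
      intro j
      induction j with
      | zero => simp
      | succ j ih =>
        rw [show n + p * (j + 1) = p + (n + p * j) by ring, Function.iterate_add_apply, ih,
          ← Function.iterate_add_apply, add_comm p n, h]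
    have e := congrArg (T^[7 * n]) (per 8)
    rw [← Function.iterate_add_apply, ← Function.iterate_add_apply,
      show 7 * n + (n + p * 8) = 8 * (n + p) by ring, show 7 * n + n = 8 * n by ring, sk, sk] at e
    have := congrFun e 0
    simp at this
    omega

end Pool.Agent.Results.MP_e7d72a_nt.Counter
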